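import Pool.Agent.LE.StmtsQX

/-!
# LQX, row QXF: the final bound
-/

set_option autoImplicit false

open MeasureTheory ProbabilityTheory Filter

open scoped ENNReal Topology

noncomputable section

namespace Pool.Agent.LE.QX.H13

open Pool.Agent.Anderson hiding box mem_box card_box
open Pool.Agent.Loc Pool.Agent.Mob Pool.Agent.Helper54.Bal Pool.Agent.LE.MN Pool.Agent.LE.CL
  Pool.Agent.LE.QF Pool.Agent.LE.QX

/-- the exponential wins -/
theorem lim_aux (C θ : ℝ) (d : ℕ) (hC : 1 ≤ C) (hθ : 0 < θ) (hd : 1 ≤ d) :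
    ∃ c : ℝ, 0 < c ∧ ∀ u : ℝ, 0 < u → u ≤ c →
      3 * C * u ^ (-2 : ℝ) * Real.exp (-(u ^ (-θ) / d)) ≤ Real.exp (-(u ^ (-(θ / 2)))) := by
  have hd0 : (1 : ℝ) ≤ d := by exact_mod_cast hd
  have h1 : ∀ᶠ x : ℝ in atTop, x ^ (4 / θ) * Real.exp (-2 * x) < 1 / (3 * C) := by
    have h := tendsto_rpow_mul_exp_neg_mul_atTop_nhds_zero (4 / θ) 2 (by norm_num)
    exact h.eventually (gt_mem_nhds (by positivity))
  have h2 : Tendsto (fun u : ℝ => u ^ (-(θ / 2))) (𝓝[>] 0) atTop := by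
    have h3 : Tendsto (fun u : ℝ => (u⁻¹) ^ (θ / 2)) (𝓝[>] 0) atTop :=
      (tendsto_rpow_atTop (by positivity)).comp tendsto_inv_nhdsGT_zero
    refine h3.congr' ?_
    filter_upwards [self_mem_nhdsWithin] with u hu
    have hu' : (0 : ℝ) < u := hu
    rw [Real.rpow_neg hu'.le, Real.inv_rpow hu'.le]
  have h3 := h2.eventually (h1.and (eventually_ge_atTop (3 * (d : ℝ))))
  obtain ⟨c, hc, hc'⟩ := mem_nhdsGT_iff_exists_Ioo_subset.1 h3
  have hc0 : (0 : ℝ) < c := hc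
  refine ⟨c / 2, by positivity, ?_⟩
  intro u hu huc
  have hmem : u ∈ Set.Ioo (0 : ℝ) c := ⟨hu, by linarith⟩
  obtain ⟨h4, h5⟩ := hc' hmem
  obtain ⟨x, hx⟩ : ∃ x : ℝ, x = u ^ (-(θ / 2)) := ⟨_, rfl⟩
  rw [← hx] at h4 h5
  have hx0 : 0 < x := by
    rw [hx]
    exact Real.rpow_pos_of_pos hu _
  have e1 : x ^ (4 / θ) = u ^ (-2 : ℝ) := by
    rw [hx, ← Real.rpow_mul hu.le]
    congr 1
    field_simp
    norm_num
  have e2 : x ^ 2 = u ^ (-θ) := by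
    rw [hx, ← Real.rpow_natCast, ← Real.rpow_mul hu.le]
    congr 1
    push_cast
    ring
  rw [← hx, ← e1, ← e2]
  have h6 : 3 * C * x ^ (4 / θ) * Real.exp (-2 * x) ≤ 1 := by
    have h7 : 3 * C * (x ^ (4 / θ) * Real.exp (-2 * x)) ≤ 3 * C * (1 / (3 * C)) :=
      mul_le_mul_of_nonneg_left h4.le (by positivity)
    have h8 : 3 * C * (1 / (3 * C)) = 1 := by
      field_simp
    linarith
  have h7 : Real.exp (-(x ^ 2 / d)) ≤ Real.exp (-2 * x) * Real.exp (-x) := by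
    rw [← Real.exp_add]
    apply Real.exp_le_exp.2
    have h8 : 3 * x ≤ x ^ 2 / d := by
      rw [le_div_iff₀ (by linarith)]
      nlinarith
    linarith
  calc 3 * C * x ^ (4 / θ) * Real.exp (-(x ^ 2 / d))
      ≤ 3 * C * x ^ (4 / θ) * (Real.exp (-2 * x) * Real.exp (-x)) :=
        mul_le_mul_of_nonneg_left h7 (by positivity)
    _ = 3 * C * x ^ (4 / θ) * Real.exp (-2 * x) * Real.exp (-x) := by ring
    _ ≤ 1 * Real.exp (-x) := mul_le_mul_of_nonneg_right h6 (Real.exp_pos _).le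
    _ = Real.exp (-x) := one_mul _

theorem qxf (cpz : CpzStmt) (crg : CrgStmt) : QxfStmt := by
  intro d a ε hd ha hε hε1
  have hd0 : (3 : ℝ) ≤ d := by exact_mod_cast hd
  obtain ⟨θ, c, hθ, hθ1, hc, hc4, h⟩ := cpz d a ε hd ha hε hε1
  obtain ⟨C, hC, hg⟩ := crg d (by omega)
  obtain ⟨c1, hc1, hlim⟩ := lim_aux C θ d hC hθ (by omega)
  refine ⟨θ / 2, min c c1, by positivity, lt_min hc hc1, (min_le_left _ _).trans hc4, ?_⟩
  intro σ E g hσ hσc hE hEa hL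
  have hσ0 : 0 < |σ| := abs_pos.2 hσ
  have hσc' : |σ| ≤ c := hσc.trans (min_le_left _ _)
  have hσ4 : |σ| ≤ 1 / 4 := hσc'.trans hc4
  obtain ⟨n, ρ, J, s, q, hs1, hs, hρ1, hρ, hJ1, hJ, hn1, hn, hq0, hq, hP⟩ :=
    h σ E hσ hσc' hE hEa
  have hn0 : (0 : ℝ) < n := by exact_mod_cast hn1
  have hρ0 : (1 : ℝ) ≤ ρ := by exact_mod_cast hρ1
  have hJ0 : (1 : ℝ) ≤ J := by exact_mod_cast hJ1
  have key := hg σ E s q g J n ρ hσ0 (by linarith) (by linarith) hs1 hJ1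
    hn1 hρ1 hL hq0 hq hP
  obtain ⟨t, ht⟩ : ∃ t : ℝ, t = |σ| ^ (-1 : ℝ) := ⟨_, rfl⟩
  rw [← ht] at hs hρ hJ
  have ht0 : 0 < t := by
    rw [ht]
    exact Real.rpow_pos_of_pos hσ0 _
  have ht' : t = 1 / |σ| := by
    rw [ht, Real.rpow_neg_one, one_div]
  have hl : Real.log (1 / |σ|) ≤ t := by
    rw [← ht']
    have := Real.log_le_sub_one_of_pos ht0
    linarith
  have hl0 : 0 ≤ Real.log (1 / |σ|) := Real.log_nonneg (by
    rw [le_div_iff₀ hσ0]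
    linarith)
  have hlρ : 0 ≤ Real.log ρ := Real.log_nonneg hρ0
  have hnd : (n : ℝ) ^ (-(1 / (d : ℝ))) ≤ Real.exp (-(|σ| ^ (-θ) / d)) := by
    calc (n : ℝ) ^ (-(1 / (d : ℝ)))
        ≤ Real.exp (|σ| ^ (-θ)) ^ (-(1 / (d : ℝ))) :=
          Real.rpow_le_rpow_of_nonpos (Real.exp_pos _) hn (by
            rw [neg_nonpos]
            positivity)
      _ = Real.exp (-(|σ| ^ (-θ) / d)) := by
          rw [← Real.exp_mul]
          congr 1
          ring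
  have e2 : t ^ 2 = |σ| ^ (-2 : ℝ) := by
    rw [ht, ← Real.rpow_natCast, ← Real.rpow_mul hσ0.le]
    norm_num
  refine key.trans ?_
  refine le_trans ?_ (hlim |σ| hσ0 (hσc.trans (min_le_right _ _)))
  have hn' : 0 ≤ (n : ℝ) ^ (-(1 / (d : ℝ))) := Real.rpow_nonneg hn0.le _
  have hsum : s + Real.log (1 / |σ|) + Real.log ρ ≤ 3 * t := by linarith
  have hsum0 : 0 ≤ s + Real.log (1 / |σ|) + Real.log ρ := by linarith
  calc C * J * (s + Real.log (1 / |σ|) + Real.log ρ) * (n : ℝ) ^ (-(1 / (d : ℝ)))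
      ≤ C * t * (3 * t) * Real.exp (-(|σ| ^ (-θ) / d)) := by
        gcongr
    _ = 3 * C * t ^ 2 * Real.exp (-(|σ| ^ (-θ) / d)) := by ring
    _ = 3 * C * |σ| ^ (-2 : ℝ) * Real.exp (-(|σ| ^ (-θ) / d)) := by rw [e2]

end Pool.Agent.LE.QX.H13
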